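import Pool.Agent.Y57.HS.UnifD2

/-!
# The maps `T_d`, simultaneously for all odd `d` up to a power of `n`, and the integers which arise from an arbitrary integer by
changing a few digits

In every odd base `q` all but a proportion `exp (-δ s)` of the integers `n` which arise from an arbitrary integer with at most `B s` digits by
changing `s` digits have the following property: for all odd integers `d` with `|d| ≤ n ^ κ` the orbits of `n` and of `-n` under the
`3x+d` map `T_d` come down to absolute values at most `n ^ (1 - η)`.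
-/

set_option autoImplicit false

namespace Pool.Agent.Results.MP_d0d59f_nt.FewDigitChanges

open Finset Filter Polynomial

/-- The `3x+d` map `T_d`. -/
def T (d x : ℤ) : ℤ := if x % 2 = 0 then x / 2 else (3 * x + d) / 2

/-- The digit number `i` (counted from the right, beginning with `0`) of `n` in base `q`. -/
def digit (q i n : ℕ) : ℕ := n / q ^ i % q

/-- The number which arises from the number `N` with at most `K` digits in base `q`, if for every `i ∈ S`
the digit number `i` is replaced by `φ i`. -/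
def change (q K N : ℕ) (φ : ℕ → ℕ) (S : Finset ℕ) : ℕ :=
  ∑ i ∈ range K, (if i ∈ S then φ i else digit q i N) * q ^ i

open Classical in
/-- The number of the choices of `s` of the `K` positions for which the number obtained by changing the digits of `N` at
the chosen positions (according to `φ`) does not have the property `E`. -/
noncomputable def exceptions (q K s N : ℕ) (φ : ℕ → ℕ) (E : ℕ → Prop) : ℕ :=
  ((powersetCard s (range K)).filter (fun S => ¬ E (change q K N φ S))).card

theorem exceptions_le {q K s N : ℕ} {φ : ℕ → ℕ} {E : ℕ → Prop} {X : ℝ}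
    (h : ∀ A ⊆ powersetCard s (range K), (∀ S ∈ A, ¬ E (change q K N φ S)) → (A.card : ℝ) ≤ X) :
    (exceptions q K s N φ E : ℝ) ≤ X := by
  classical
  unfold exceptions
  exact h _ (filter_subset _ _) (fun S hS => (mem_filter.1 hS).2)

/-- `T_(-d)(-x) = -T_d(x)` for odd `d` -/
theorem T_neg (d x : ℤ) (hd : d % 2 = 1) : T (-d) (-x) = -T d x := by
  unfold T
  by_cases h : x % 2 = 0
  · rw [if_pos h, if_pos (by omega)]
    omega
  · rw [if_neg h, if_neg (by omega)]
    omega

theorem iter_neg (d : ℤ) (hd : d % 2 = 1) (k : ℕ) : ∀ x : ℤ, (T (-d))^[k] (-x) = -(T d)^[k] x := by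
  induction k with
  | zero => intro x; rfl
  | succ k ih =>
    intro x
    rw [Function.iterate_succ_apply, Function.iterate_succ_apply, T_neg d x hd, ih]

/-- **Main theorem.** Let `q ≥ 2` be odd and `B > 0`. There are `η, κ, δ > 0` and `s₀` such that for all `s ≥ s₀` and `K` with
`2 s ≤ K ≤ B s` the following holds. Let `0 ≤ N < q ^ K` be an arbitrary integer and prescribe for every position `j` a digit `φ j`
different from the digit of `N` in base `q`. For all but at most a proportion `exp (-δ s)` of the choices of `s` of the `K`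
positions the number `n` obtained by replacing the digits of `N` at these positions has the following property: for every odd integer
`d` with `|d| ≤ n ^ κ` some term of the orbit of `n` under `T_d` and some term of the orbit of `-n` under `T_d` have absolute value
at most `n ^ (1 - η)`. -/
theorem result (q : ℕ) (hq : 2 ≤ q) (hq2 : Odd q) (B : ℝ) :
    ∃ η κ δ : ℝ, 0 < η ∧ 0 < κ ∧ 0 < δ ∧ ∃ s₀ : ℕ, ∀ s K : ℕ, s₀ ≤ s → 2 * s ≤ K → (K : ℝ) ≤ B * s →
      ∀ N : ℕ, N < q ^ K → ∀ φ : ℕ → ℕ, (∀ j, φ j < q ∧ φ j ≠ digit q j N) →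
      (exceptions q K s N φ (fun n => ∀ d : ℤ, Odd d → |(d : ℝ)| ≤ (n : ℝ) ^ κ →
        (∃ k : ℕ, |(((T d)^[k] (n : ℤ) : ℤ) : ℝ)| ≤ (n : ℝ) ^ (1 - η)) ∧
        ∃ k : ℕ, |(((T d)^[k] (-(n : ℤ)) : ℤ) : ℝ)| ≤ (n : ℝ) ^ (1 - η)) : ℝ) ≤
          Real.exp (-(δ * s)) * (K.choose s : ℝ) := by
  obtain ⟨c, c₂, κ, δ, hc, hc₂, hκ, hδ, s₀, h⟩ := Pool.Agent.Y57.HS.UD.main q hq hq2
  obtain ⟨B', hB', s₁, h'⟩ := Pool.Agent.Y57.HS.size_up q hq (X : ℤ[X]) c hc B
  refine ⟨c₂ / B', κ / B', δ, by positivity, by positivity, hδ, max s₀ s₁, fun s K hs hsK hKB N hN φ hφ => ?_⟩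
  have hs1 : s₁ ≤ s := (le_max_right _ _).trans hs
  apply exceptions_le
  intro A hA hE
  refine h s K ((le_max_left _ _).trans hs) hsK N hN φ hφ A hA (fun S hS => ?_)
  rintro ⟨h1, h2⟩
  apply hE S hS
  obtain ⟨n, hn⟩ : ∃ n, n = change q K N φ S := ⟨_, rfl⟩
  have hn' : Pool.Agent.TH894.SM.change q K N φ S = n := hn.symm
  rw [← hn]
  rw [hn'] at h1 h2
  have h3 := h' s K hs1 hKB N φ (fun j => (hφ j).1) S (by
    rw [eval_X, hn', Int.cast_natCast, abs_of_nonneg (Nat.cast_nonneg _)]
    exact h1)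
  rw [eval_X, hn', Int.cast_natCast, abs_of_nonneg (Nat.cast_nonneg _)] at h3
  have hn0 : (0 : ℝ) < n := lt_of_lt_of_le (Real.exp_pos _) h1
  have hpow : (n : ℝ) ^ (κ / B') ≤ Real.exp (κ * s) := by
    calc (n : ℝ) ^ (κ / B') ≤ (Real.exp (B' * s)) ^ (κ / B') := Real.rpow_le_rpow hn0.le h3 (by positivity)
      _ = Real.exp (κ * s) := by
          rw [← Real.exp_mul]
          congr 1
          field_simp
  have key : ∀ d : ℤ, Odd d → |(d : ℝ)| ≤ (n : ℝ) ^ (κ / B') →
      ∃ k : ℕ, |(((T d)^[k] (n : ℤ) : ℤ) : ℝ)| ≤ (n : ℝ) ^ (1 - c₂ / B') := by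
    intro d hd hdn
    obtain ⟨k, -, h4⟩ := h2 d (Int.odd_iff.1 hd) (hdn.trans hpow)
    exact ⟨k, h4.trans (Pool.Agent.Y57.HS.exp_to_pow hc₂ hB' hn0 h3).1⟩
  intro d hd hdn
  refine ⟨key d hd hdn, ?_⟩
  obtain ⟨k, hk⟩ := key (-d) hd.neg (by
    rw [Int.cast_neg, abs_neg]
    exact hdn)
  refine ⟨k, ?_⟩
  have h5 := iter_neg (-d) (Int.odd_iff.1 hd.neg) k (n : ℤ)
  rw [neg_neg] at h5
  rw [h5, Int.cast_neg, abs_neg]
  exact hk

end Pool.Agent.Results.MP_d0d59f_nt.FewDigitChanges
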