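import Mathlib
import Pool.Agent.Y780.Mo.Two

set_option autoImplicit false

/-!
# Orbits of the `3x+d` maps: few simple pieces force the orbit into a small cycle, uniformly in `d`

For every `A` there is ONE constant `B` for all odd `d`. If the parity word of length `N` of `x` is a
concatenation of `s` words with at most `A n` factors of each length `n ≥ M`, or differs in `s` places
from one such word, and `N > B ^ (s + 1) (M + log (|x| + |d|))`, then the orbit of `x` enters, in at most
`N` steps, a cycle which is contained in `[-(e ^ M |d|) ^ B, (e ^ M |d|) ^ B]`. In particular (`M = 1`) the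
finite set `[-(e |d|) ^ B, (e |d|) ^ B]` meets every orbit whose parity word of length `N` is, for some
`N`, a concatenation of fewer than `c log (N / (1 + log (|x| + |d|)))` words of complexity at most `A n`.
-/

namespace Pool.Agent.Results.MP_d0d59f_nt.FewPiecesSmallCycle

open Pool.Agent.TH932.S2.F

/-- the `3x+d` map on the integers -/
def T (d x : ℤ) : ℤ := if x % 2 = 0 then x / 2 else (3 * x + d) / 2

/-- The parity word of length `N` of `x`: the list of the parities of the first `N` terms of the orbit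
(`true` = odd). -/
def parityWord (d x : ℤ) (N : ℕ) : List Bool :=
  (List.range N).map fun i => decide ((T d)^[i] x % 2 = 1)

/-- The number of different factors (blocks of consecutive letters) of length `n` of a word. -/
def complexity (u : List Bool) (n : ℕ) : ℕ :=
  ((Finset.range (u.length + 1 - n)).image fun i => (u.drop i).take n).card

/-- The word `u` has at most `A n` factors of each length `n ≥ M`. -/
def LinearComplexity (A : ℝ) (M : ℕ) (u : List Bool) : Prop :=
  ∀ n : ℕ, M ≤ n → (complexity u n : ℝ) ≤ A * n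

/-- The number of places in which two words differ. -/
def hammingDistance (u v : List Bool) : ℕ := ((u.zip v).filter fun a => a.1 != a.2).length

/-- `z` lies on a cycle of `T_d` of length at most `B (M + log |d|)` which is contained in
`[-(e ^ M |d|) ^ B, (e ^ M |d|) ^ B]`. -/
def SmallCycle (B : ℝ) (M : ℕ) (d z : ℤ) : Prop :=
  (∃ k : ℕ, 1 ≤ k ∧ (k : ℝ) ≤ B * (M + Real.log |(d : ℝ)|) ∧ (T d)^[k] z = z) ∧
    ∀ j : ℕ, |(((T d)^[j] z : ℤ) : ℝ)| ≤ (Real.exp M * |(d : ℝ)|) ^ B

/-- the affine maps -/
def TD : Dt Bool where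
  p := 2
  q := 3
  M := 3
  δ := fun a => if a then 1 else 0
  β := fun a => if a then 1 else 0
  hp := le_rfl
  hq := by norm_num
  hpq := by norm_num [Int.isCoprime_iff_gcd_eq_one]
  hpM := by norm_num
  hqM := by intro a; cases a <;> norm_num
  hβM := by intro a; cases a <;> norm_num

/-- the letters -/
def ltr (x : ℤ) : Bool := decide (x % 2 = 1)

lemma mp {d : ℤ} (hd : Odd d) : Mp TD d ltr (T d) where
  hd := by
    change IsCoprime d ((2 : ℕ) : ℤ)
    obtain ⟨k, rfl⟩ := hd
    exact ⟨1, -k, by push_cast; ring⟩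
  hG := by
    intro x
    have hd2 : d % 2 = 1 := Int.odd_iff.1 hd
    change ((2 : ℕ) : ℤ) * T d x = ((3 : ℕ) : ℤ) ^ (if ltr x then 1 else 0) * x + d * (if ltr x then 1 else 0)
    unfold T ltr
    by_cases h : x % 2 = 0
    · have h1 : decide (x % 2 = 1) = false := decide_eq_false (by omega)
      rw [h1, if_pos h]
      simp only [Bool.false_eq_true, if_false, pow_zero, one_mul, mul_zero, add_zero]
      omega
    · have h1 : decide (x % 2 = 1) = true := decide_eq_true (by omega)
      rw [h1, if_neg h]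
      simp only [if_true, pow_one, mul_one]
      omega

lemma exp_eq {B : ℝ} {M : ℕ} {d : ℤ} (hd : 1 ≤ |(d : ℝ)|) :
    Real.exp (B * (M + Real.log |(d : ℝ)|)) = (Real.exp M * |(d : ℝ)|) ^ B := by
  have h0 : 0 < |(d : ℝ)| := by linarith
  rw [Real.rpow_def_of_pos (by positivity), Real.log_mul (Real.exp_pos _).ne' h0.ne', Real.log_exp]
  ring_nf

lemma small {B B' : ℝ} (hB : B ≤ B') {M : ℕ} {d z : ℤ} (hd : 1 ≤ |(d : ℝ)|)
    (h : Pool.Agent.Y780.Mo.SmallCycle B M d (T d) z) : SmallCycle B' M d z := by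
  obtain ⟨h1, h2⟩ := h.mono hB hd
  refine ⟨h1, fun j => ?_⟩
  rw [← exp_eq hd]
  exact h2 j

/-- For every real `A` there is `B ≥ 1` such that for all odd `d`, all integers `x` and all `M ≥ 1`,
`N`: (1) if the parity word of length `N` of `x` is the concatenation of the words of the list `W`, each
of which has at most `A n` factors of each length `n ≥ M`, and
`N > B ^ (s + 1) (M + log (|x| + |d|))`, `s` the number of words in `W`, then for some `i ≤ N` the number
`T_d^i x` lies on a cycle of length at most `B (M + log |d|)` which is contained in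
`[-(e ^ M |d|) ^ B, (e ^ M |d|) ^ B]`; (2) the same holds if a word `v` of length `N` has at most `A n`
factors of each length `n ≥ M` and differs from the parity word of `x` in `s` places; (3) if
`T_d^N x ≠ T_d^N y`, then `N ≤ B ^ (D + 1) (1 + log (max (|x|, |y|) + |d|))`, where `D` is the number of
places in which the parity words of length `N` of `x` and `y` differ. -/
theorem result (A : ℝ) : ∃ B : ℝ, 1 ≤ B ∧ ∀ d : ℤ, Odd d → ∀ (x : ℤ) (M N : ℕ), 1 ≤ M →
    (∀ W : List (List Bool), W.flatten = parityWord d x N → (∀ u ∈ W, LinearComplexity A M u) →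
      B ^ (W.length + 1) * (M + Real.log (|(x : ℝ)| + |(d : ℝ)|)) < N →
      ∃ i ≤ N, SmallCycle B M d ((T d)^[i] x)) ∧
    (∀ v : List Bool, v.length = N → LinearComplexity A M v →
      B ^ (hammingDistance (parityWord d x N) v + 1) * (M + Real.log (|(x : ℝ)| + |(d : ℝ)|)) < N →
      ∃ i ≤ N, SmallCycle B M d ((T d)^[i] x)) ∧
    (∀ y : ℤ, (T d)^[N] x ≠ (T d)^[N] y →
      (N : ℝ) ≤ B ^ (hammingDistance (parityWord d x N) (parityWord d y N) + 1) *
        (1 + Real.log (max |(x : ℝ)| |(y : ℝ)| + |(d : ℝ)|))) := by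
  obtain ⟨B1, hB1, h1⟩ := Pool.Agent.Y780.Mo.pieces TD A
  obtain ⟨B2, hB2, h2⟩ := Pool.Agent.Y780.Mo.near TD A
  obtain ⟨B3, hB3, h3⟩ := Pool.Agent.Y780.Mo.two' TD
  set B : ℝ := max B1 (max B2 B3) with hB
  have e1 : B1 ≤ B := le_max_left _ _
  have e2 : B2 ≤ B := (le_max_left _ _).trans (le_max_right _ _)
  have e3 : B3 ≤ B := (le_max_right _ _).trans (le_max_right _ _)
  refine ⟨B, hB1.trans e1, fun d hd x M N hM => ?_⟩
  have hmp := mp hd
  have hd1 := Pool.Agent.Y780.Mo.one_le_d hmp
  have hh : 0 ≤ Real.log (|(x : ℝ)| + |(d : ℝ)|) := Pool.Agent.Y780.Mo.ht_nonneg hmp x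
  have hS : 0 ≤ (M : ℝ) + Real.log (|(x : ℝ)| + |(d : ℝ)|) := by positivity
  refine ⟨fun W hW hlow hN => ?_, fun v hv hlow hN => ?_, fun y hne => ?_⟩
  · obtain ⟨i, hi, hc⟩ := h1 d ltr (T d) hmp x M N W hM hW hlow
      (lt_of_le_of_lt (mul_le_mul_of_nonneg_right (pow_le_pow_left₀ (by linarith) e1 _) hS) hN)
    exact ⟨i, hi, small e1 hd1 hc⟩
  · obtain ⟨i, hi, hc⟩ := h2 d ltr (T d) hmp x M N v hM hv hlow
      (lt_of_le_of_lt (mul_le_mul_of_nonneg_right (pow_le_pow_left₀ (by linarith) e2 _) hS) hN)
    exact ⟨i, hi, small e2 hd1 hc⟩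
  · refine (h3 d ltr (T d) hmp N x y hne).trans (mul_le_mul_of_nonneg_right
      (pow_le_pow_left₀ (by linarith) e3 _) ?_)
    have := Pool.Agent.Y780.Mo.h2_nonneg hmp x y
    unfold Pool.Agent.Y780.Mo.h2 at this
    linarith

end Pool.Agent.Results.MP_d0d59f_nt.FewPiecesSmallCycle
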