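import Pool.Agent.Y966.UB.Path9

/-!
# The law of the random walk model for `3x+d`, at all times and uniformly in `d`

For the steady trajectories (steady at the scale of a fixed number of steps), and for all
trajectories when the proportion of the odd terms is at most `1/3`, the number of the integers whose
trajectory under `T_d` follows a prescribed path is the one predicted by the random walk model, at
all times, with constants which do not depend on `d`.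
-/

set_option autoImplicit false

namespace Pool.Agent.Results.MP_d0d59f_nt.PathLawUniformInD

/-- The `3x+d` map. -/
def T (d x : ℤ) : ℤ := if x % 2 = 0 then x / 2 else (3 * x + d) / 2

/-- The number of odd terms among `n, T n, ..., T^(k-1) n`. -/
def odds (d : ℤ) (k : ℕ) (n : ℤ) : ℕ :=
  ((Finset.range k).filter fun j => (T d)^[j] n % 2 = 1).card

/-- The number of steps of the path `P`, a list of pieces `(τ, ρ)`, at the scale `s`: the piece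
`(τ, ρ)` takes `⌊τ s⌋` steps. -/
noncomputable def steps (s : ℝ) : List (ℝ × ℝ) → ℕ
  | [] => 0
  | p :: P => ⌊p.1 * s⌋₊ + steps s P

/-- The trajectory of `n` is in the tube of width `δ s` around the path `P`: in each piece `(τ, ρ)`, of
`⌊τ s⌋` steps, the first `j` steps of the piece contain `ρ j` odd terms, up to `δ s`, for all `j`. -/
def Tube (d : ℤ) (δ s : ℝ) : List (ℝ × ℝ) → ℤ → Prop
  | [], _ => True
  | p :: P, n => (∀ j ≤ ⌊p.1 * s⌋₊, |(odds d j n : ℝ) - p.2 * j| ≤ δ * s) ∧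
      Tube d δ s P ((T d)^[⌊p.1 * s⌋₊] n)

/-- The first `k` steps of the trajectory of `n` are steady: of any `L` consecutive terms at least
`η L` and at most `r L` are odd. -/
def Steady (η r : ℝ) (L : ℕ) (d : ℤ) (k : ℕ) (n : ℤ) : Prop :=
  ∀ i : ℕ, i + L ≤ k →
    η * L ≤ (odds d L ((T d)^[i] n) : ℝ) ∧ (odds d L ((T d)^[i] n) : ℝ) ≤ r * L

/-- The decrease of the logarithm of the size along the path, in units of `s`: the sum of
`τ (log 2 - ρ log 3)`. -/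
noncomputable def drop : List (ℝ × ℝ) → ℝ
  | [] => 0
  | p :: P => p.1 * (Real.log 2 - p.2 * Real.log 3) + drop P

/-- The rate function of the random walk model integrated along the path: the sum of
`τ (log 2 - H(ρ))` with the binary entropy `H` in nats. -/
noncomputable def cost : List (ℝ × ℝ) → ℝ
  | [] => 0
  | p :: P => p.1 * (Real.log 2 - Real.binEntropy p.2) + cost P

/-- The integers `n` whose trajectory under `T d` is in the tube, has the property `Q`, and is at `a`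
at the end. -/
def Arrive (d : ℤ) (Q : ℤ → ℕ → ℤ → Prop) (P : List (ℝ × ℝ)) (δ x : ℝ) (a : ℤ) : Set ℤ :=
  {n : ℤ | (T d)^[steps (Real.log x) P] n = a ∧ Tube d δ (Real.log x) P n ∧
    Q d (steps (Real.log x) P) n}

/-- The integers `n` with `|n| ≤ x` whose trajectory under `T d` is in the tube and has the property
`Q`. -/
def UpTo (d : ℤ) (Q : ℤ → ℕ → ℤ → Prop) (P : List (ℝ × ℝ)) (δ x : ℝ) : Set ℤ :=
  {n : ℤ | |(n : ℝ)| ≤ x ∧ Tube d δ (Real.log x) P n ∧ Q d (steps (Real.log x) P) n}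

/-- The law of the random walk model for `T d`. Local: every integer `a` is reached along the path by
at most `x^(drop - cost + ε)` integers `n`, by at least `x^(drop - cost - ε)` if `a` is prime to `3`,
and they are at most `(|a| + |d|) x^(drop + ε)`. Global: if `drop < 1` and `|d| ≤ x^(1 - drop - ε)`,
then the path is followed by `x^(1 - cost ± ε)` of the integers in `[-x, x]`. -/
def Law (d : ℤ) (Q : ℤ → ℕ → ℤ → Prop) (P : List (ℝ × ℝ)) (ε δ x : ℝ) : Prop :=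
  (∀ a : ℤ, (Arrive d Q P δ x a).Finite ∧
    ((Arrive d Q P δ x a).ncard : ℝ) ≤ x ^ (drop P - cost P + ε) ∧
    (¬ 3 ∣ a → x ^ (drop P - cost P - ε) ≤ ((Arrive d Q P δ x a).ncard : ℝ)) ∧
    ∀ n ∈ Arrive d Q P δ x a, |(n : ℝ)| ≤ (|(a : ℝ)| + |(d : ℝ)|) * x ^ (drop P + ε)) ∧
  (drop P < 1 → |(d : ℝ)| ≤ x ^ (1 - drop P - ε) →
    x ^ (1 - cost P - ε) ≤ ((UpTo d Q P δ x).ncard : ℝ) ∧
    ((UpTo d Q P δ x).ncard : ℝ) ≤ x ^ (1 - cost P + ε))

/-! ### proofs -/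

section

open Pool.Agent.H395R2.G3 Pool.Agent.Y966.LD Pool.Agent.Y966.UB

theorem steps_eq (s : ℝ) : ∀ P : List (ℝ × ℝ), steps s P = stp s P := by
  intro P
  induction P with
  | nil => rfl
  | cons p P ih =>
    have e1 : steps s (p :: P) = ⌊p.1 * s⌋₊ + steps s P := rfl
    have e2 : stp s (p :: P) = ⌊p.1 * s⌋₊ + stp s P := rfl
    rw [e1, e2, ih]

theorem drop_eq : ∀ P : List (ℝ × ℝ), drop P = dr P := by
  intro P
  induction P with
  | nil => rfl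
  | cons p P ih =>
    have e1 : drop (p :: P) = p.1 * (Real.log 2 - p.2 * Real.log 3) + drop P := rfl
    have e2 : dr (p :: P) = p.1 * (Real.log 2 - p.2 * Real.log 3) + dr P := rfl
    rw [e1, e2, ih]

theorem gain_eq : ∀ P : List (ℝ × ℝ), drop P - cost P = gn P := by
  intro P
  induction P with
  | nil => simp [drop, cost, gn]
  | cons p P ih =>
    have e1 : drop (p :: P) = p.1 * (Real.log 2 - p.2 * Real.log 3) + drop P := rfl
    have e2 : cost (p :: P) = p.1 * (Real.log 2 - Real.binEntropy p.2) + cost P := rfl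
    have e3 : gn (p :: P) = p.1 * FF p.2 + gn P := rfl
    have e4 : FF p.2 = Real.binEntropy p.2 - p.2 * Real.log 3 := rfl
    rw [e1, e2, e3, e4, ← ih]
    ring

theorem T_eq (d : ℤ) : T d = TD d := rfl

theorem odds_eq (d : ℤ) (k : ℕ) (n : ℤ) : odds d k n = od d k n := rfl

theorem Tube_iff (d : ℤ) (δ s : ℝ) : ∀ (P : List (ℝ × ℝ)) (n : ℤ),
    Tube d δ s P n ↔ TbD d δ s P n := by
  intro P
  induction P with
  | nil => intro n; exact Iff.rfl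
  | cons p P ih =>
    intro n
    exact and_congr Iff.rfl (ih _)

theorem Steady_iff (η r : ℝ) (L : ℕ) (d : ℤ) (k : ℕ) (n : ℤ) :
    Steady η r L d k n ↔ StyD d η r L k n := Iff.rfl

/-- the size of the error in the local law -/
theorem law_of {Q : ℤ → ℕ → ℤ → Prop} {QZ : ℕ → ℤ → Prop}
    (hQ : ∀ (d : ℤ) (k : ℕ) (m M : ℤ), Par d k m M → (Q d k m ↔ QZ k M))
    {P : List (ℝ × ℝ)} (hP : ∀ p ∈ P, 0 < p.1 ∧ 0 < p.2 ∧ p.2 * Real.log 3 ≤ Real.log 2)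
    {ε δ κ : ℝ} (hκ : 0 < κ) (hκ1 : κ ≤ ε / 2) (hκ2 : dr P < 1 → κ ≤ (1 - dr P) / 2)
    (hδ : 0 ≤ δ) (hδ1 : P.length * (δ * Real.log 3) ≤ κ / 8)
    (hloc : ∃ s₁ : ℝ, 0 < s₁ ∧ ∀ s : ℝ, s₁ ≤ s → Loc QZ δ (κ / 4) P s) :
    ∃ X₀ : ℝ, ∀ x : ℝ, X₀ ≤ x → ∀ d : ℤ, Odd d → ¬ 3 ∣ d → Law d Q P ε δ x := by
  obtain ⟨s₂, hs₂, hsz⟩ := size_tube hP (ε := ε) (by linarith) hδ (by linarith)
  have hg : ∃ s₃ : ℝ, 0 < s₃ ∧ ∀ s : ℝ, s₃ ≤ s → dr P < 1 → ∀ d : ℤ, d % 2 = 1 →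
      ¬ (3 : ℤ) ∣ d → |(d : ℝ)| ≤ Real.exp ((1 - dr P - ε) * s) →
      Real.exp ((1 - dr P + gn P - ε) * s) ≤ ((GD d (Q d) δ s P).ncard : ℝ) ∧
      ((GD d (Q d) δ s P).ncard : ℝ) ≤ Real.exp ((1 - dr P + gn P + ε) * s) := by
    by_cases hdr : dr P < 1
    · obtain ⟨s₃, hs₃, h⟩ := global_d hQ hP hdr hκ hκ1 (hκ2 hdr) hδ hδ1 hloc
      exact ⟨s₃, hs₃, fun s hs _ => h s hs⟩
    · exact ⟨1, one_pos, fun s hs h => absurd h hdr⟩
  obtain ⟨s₃, hs₃, hg⟩ := hg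
  obtain ⟨s₁, hs₁, hloc⟩ := hloc
  refine ⟨Real.exp (max s₁ (max s₂ s₃)), fun x hx d hdo hd3 => ?_⟩
  have hd : d % 2 = 1 := Int.odd_iff.1 hdo
  have hx0 : 0 < x := lt_of_lt_of_le (Real.exp_pos _) hx
  have hs : max s₁ (max s₂ s₃) ≤ Real.log x := by
    rw [Real.le_log_iff_exp_le hx0]
    exact hx
  set s := Real.log x with hsdef
  have hs1 : s₁ ≤ s := (le_max_left _ _).trans hs
  have hs2 : s₂ ≤ s := (le_max_left _ _).trans ((le_max_right _ _).trans hs)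
  have hs3 : s₃ ≤ s := (le_max_right _ _).trans ((le_max_right _ _).trans hs)
  have hs0 : 0 < s := hs₁.trans_le hs1
  have hrp : ∀ c : ℝ, x ^ c = Real.exp (c * s) := fun c => by
    rw [Real.rpow_def_of_pos hx0, mul_comm]
  have hL : Loc QZ δ ε P s := Loc_mono hs0.le (hloc s hs1) (by linarith)
  constructor
  · intro a
    have e : Arrive d Q P δ x a = TTD d (Q d) δ s P a := by
      ext n
      unfold Arrive TTD
      simp only [Set.mem_setOf_eq]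
      rw [← hsdef, steps_eq, T_eq, Tube_iff]
    obtain ⟨f1, f2, f3⟩ := local_d hQ hL hd hd3 a
    rw [e, gain_eq, hrp, hrp, hrp]
    refine ⟨f1, f2, f3, fun n hn => ?_⟩
    obtain ⟨n1, n2, _⟩ := hn
    obtain ⟨z1, _⟩ := hsz s hs2 d hd hd3 n n2
    rw [n1] at z1
    rw [drop_eq]
    exact z1
  · intro hdr hdb
    rw [drop_eq] at hdr hdb
    rw [hrp] at hdb
    have hc : 1 - cost P = 1 - dr P + gn P := by
      rw [← gain_eq, drop_eq]
      ring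
    have e : UpTo d Q P δ x = GD d (Q d) δ s P := by
      ext n
      unfold UpTo GD
      simp only [Set.mem_setOf_eq]
      rw [← hsdef, steps_eq, Tube_iff, Real.exp_log hx0]
    rw [e, hc, hrp, hrp]
    exact hg s hs3 hdr d hd hd3 hdb

/-- parameters -/
theorem pick (P : List (ℝ × ℝ)) {ε : ℝ} (hε : 0 < ε) :
    ∃ κ : ℝ, 0 < κ ∧ κ ≤ ε / 2 ∧ (dr P < 1 → κ ≤ (1 - dr P) / 2) := by
  by_cases hd : dr P < 1
  · exact ⟨min (ε / 2) ((1 - dr P) / 2), lt_min (by positivity) (by linarith), min_le_left _ _,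
      fun _ => min_le_right _ _⟩
  · exact ⟨ε / 2, by positivity, le_rfl, fun h => absurd h hd⟩

theorem pick2 (P : List (ℝ × ℝ)) {κ δ₁ : ℝ} (hκ : 0 < κ) (hδ₁ : 0 < δ₁) :
    ∃ δ₀ : ℝ, 0 < δ₀ ∧ ∀ δ : ℝ, 0 < δ → δ ≤ δ₀ → 2 * δ ≤ δ₁ ∧
      P.length * (δ * Real.log 3) ≤ κ / 8 := by
  have hl3 : 0 < Real.log 3 := Real.log_pos (by norm_num)
  have hK : 0 < (P.length : ℝ) * Real.log 3 + 1 := by positivity
  refine ⟨min (δ₁ / 2) (κ / 8 / ((P.length : ℝ) * Real.log 3 + 1)),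
    lt_min (by positivity) (by positivity), fun δ hδ h => ⟨?_, ?_⟩⟩
  · have := h.trans (min_le_left _ _)
    linarith
  · have := h.trans (min_le_right _ _)
    rw [le_div_iff₀ hK] at this
    nlinarith

theorem steady_part {η r : ℝ} (hη : 0 < η) (hηr : η < r) (hr1 : r < 1) (hH : 0 ≤ FF r)
    (P : List (ℝ × ℝ)) (hP : ∀ p ∈ P, 0 < p.1 ∧ η < p.2 ∧ p.2 < r) {ε : ℝ} (hε : 0 < ε) :
    ∃ δ₀ : ℝ, 0 < δ₀ ∧ ∀ δ : ℝ, 0 < δ → δ ≤ δ₀ → ∃ L₀ : ℕ, ∀ L : ℕ, L₀ ≤ L →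
      ∃ X₀ : ℝ, ∀ x : ℝ, X₀ ≤ x → ∀ d : ℤ, Odd d → ¬ 3 ∣ d → Law d (Steady η r L) P ε δ x := by
  have hl3 : 0 < Real.log 3 := Real.log_pos (by norm_num)
  have hrl := r_log hr1 hH
  have hP4 : ∀ p ∈ P, 0 < p.1 ∧ 0 < p.2 ∧ p.2 * Real.log 3 ≤ Real.log 2 := by
    intro p hp
    obtain ⟨h1, h2, h3⟩ := hP p hp
    refine ⟨h1, hη.trans h2, ?_⟩
    have := mul_le_mul_of_nonneg_right h3.le hl3.le
    linarith
  obtain ⟨κ, hκ, hκ1, hκ2⟩ := pick P hε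
  obtain ⟨δ₁, hδ₁, L₁, hU⟩ := steady_list hη hr1 hH P hP (show 0 < κ / 4 / 2 by positivity)
  obtain ⟨δ₀, hδ₀, hpk⟩ := pick2 P hκ hδ₁
  refine ⟨δ₀, hδ₀, fun δ hδ hδ2 => ?_⟩
  obtain ⟨hp1, hp2⟩ := hpk δ hδ hδ2
  obtain ⟨L₂, hl2⟩ := low_steady hη hr1 hH P hP (show 0 < κ / 4 by positivity) hδ
  refine ⟨max L₁ L₂, fun L hL => ?_⟩
  have e1 : L₁ ≤ L := (le_max_left _ _).trans hL
  have e2 : L₂ ≤ L := (le_max_right _ _).trans hL
  exact law_of (Q := Steady η r L) (QZ := Sty η r L) (fun d k m M h => StyD_iff h) hP4 hκ hκ1 hκ2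
    hδ.le hp2 (local_gen (fun p hp => ⟨(hP p hp).1, hη.trans (hP p hp).2.1,
      (hP p hp).2.2.trans hr1⟩) hδ (show 0 < κ / 4 by positivity)
      (hU L e1 (2 * δ) (by positivity) hp1) (hl2 L e2))

theorem all_part (P : List (ℝ × ℝ)) (hP : ∀ p ∈ P, 0 < p.1 ∧ 0 < p.2 ∧ p.2 ≤ 1 / 3) {ε : ℝ}
    (hε : 0 < ε) :
    ∃ δ₀ : ℝ, 0 < δ₀ ∧ ∀ δ : ℝ, 0 < δ → δ ≤ δ₀ →
      ∃ X₀ : ℝ, ∀ x : ℝ, X₀ ≤ x → ∀ d : ℤ, Odd d → ¬ 3 ∣ d →
        Law d (fun _ _ _ => True) P ε δ x := by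
  have hl3 : 0 < Real.log 3 := Real.log_pos (by norm_num)
  have hhalf : 0 ≤ FF (1 / 2) := by
    have h2 : (1 : ℝ) / 2 < 4771 / 7833 := by norm_num
    exact (FF_pos_of (show (0 : ℝ) < 1 / 2 by norm_num) h2 (by norm_num) FF_low.le).le
  have hrl := r_log (r := 1 / 2) (by norm_num) hhalf
  have hP4 : ∀ p ∈ P, 0 < p.1 ∧ 0 < p.2 ∧ p.2 * Real.log 3 ≤ Real.log 2 := by
    intro p hp
    obtain ⟨h1, h2, h3⟩ := hP p hp
    refine ⟨h1, h2, ?_⟩
    have := mul_le_mul_of_nonneg_right (show p.2 ≤ 1 / 2 by linarith) hl3.le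
    linarith
  obtain ⟨κ, hκ, hκ1, hκ2⟩ := pick P hε
  obtain ⟨δ₁, hδ₁, hU⟩ := fast_list P hP (show 0 < κ / 4 / 2 by positivity)
  obtain ⟨δ₀, hδ₀, hpk⟩ := pick2 P hκ hδ₁
  refine ⟨δ₀, hδ₀, fun δ hδ hδ2 => ?_⟩
  obtain ⟨hp1, hp2⟩ := hpk δ hδ hδ2
  exact law_of (Q := fun _ _ _ => True) (QZ := fun _ _ => True) (fun _ _ _ _ _ => Iff.rfl) hP4 hκ
    hκ1 hκ2 hδ.le hp2 (local_gen (fun p hp => ⟨(hP p hp).1, (hP p hp).2.1, by
      have := (hP p hp).2.2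
      linarith⟩) hδ (show 0 < κ / 4 by positivity)
      (hU (2 * δ) (by positivity) hp1) (low_all P hP (show 0 < κ / 4 by positivity) hδ))

end

/-- (1) Steady trajectories. Let `r log 3 ≤ H(r)` (that is `r ≤ 0.6090...`), and let `P` be a path with
finitely many pieces, the frequencies of odd terms being between `η > 0` and `r`. Then the law of the
random walk model holds for the trajectories under `T d` which are steady at the scale of `L` steps,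
for all odd `d` not divisible by `3`, with an `X₀` which does not depend on `d`.
(2) All trajectories. If the frequencies are at most `1/3`, the law holds for all trajectories. -/
theorem result :
    (∀ η r : ℝ, 0 < η → η < r → r < 1 → r * Real.log 3 ≤ Real.binEntropy r →
      ∀ P : List (ℝ × ℝ), (∀ p ∈ P, 0 < p.1 ∧ η < p.2 ∧ p.2 < r) → ∀ ε : ℝ, 0 < ε →
      ∃ δ₀ : ℝ, 0 < δ₀ ∧ ∀ δ : ℝ, 0 < δ → δ ≤ δ₀ → ∃ L₀ : ℕ, ∀ L : ℕ, L₀ ≤ L →
        ∃ X₀ : ℝ, ∀ x : ℝ, X₀ ≤ x → ∀ d : ℤ, Odd d → ¬ 3 ∣ d → Law d (Steady η r L) P ε δ x) ∧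
    (∀ P : List (ℝ × ℝ), (∀ p ∈ P, 0 < p.1 ∧ 0 < p.2 ∧ p.2 ≤ 1 / 3) → ∀ ε : ℝ, 0 < ε →
      ∃ δ₀ : ℝ, 0 < δ₀ ∧ ∀ δ : ℝ, 0 < δ → δ ≤ δ₀ →
        ∃ X₀ : ℝ, ∀ x : ℝ, X₀ ≤ x → ∀ d : ℤ, Odd d → ¬ 3 ∣ d →
          Law d (fun _ _ _ => True) P ε δ x) := by
  constructor
  · intro η r hη hηr hr1 hH P hP ε hε
    exact steady_part hη hηr hr1 (sub_nonneg.2 hH) P hP hε
  · intro P hP ε hε
    exact all_part P hP hε

end Pool.Agent.Results.MP_d0d59f_nt.PathLawUniformInD
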