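import Mathlib
import Pool.Agent.Y967.CM.E
import Pool.Agent.Y967.CM.SP
import Pool.Agent.Y967.CM.SQ
import Pool.Agent.Y967.TD.C

set_option autoImplicit false

/-!
# The trajectories of the `3x+d` maps along sparse sequences, uniformly in `d`

A sequence of integers `x n` is called spread if small sets of classes modulo `2 ^ t`, `2 ^ t ≤ N ^ δ`,
contain few of the `x n`, `n ≤ N`. The integers and the primes are spread; so are all polynomial values
of a spread sequence and the powers `a b ^ (e n)`, `b` odd, with spread exponents `e n`.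

For almost all `n` every trajectory of the `3x+d` map which passes near one of the integers
`3 ^ i x n`, `i ≤ W n`, at a distance `d r`, `|r| ≤ exp (W n)`, merges with the trajectory of `x n` within
`κ log n` steps, for every `κ > 0`; here `W n = √ log n / (log log n) ^ 17`. The bound for the number of
exceptional `n ≤ N` does not depend on `d`. The exponent `1 / 2` of `log n` is sharp, uniformly for
`|d| ≤ N ^ c`.

Method. The `3x+d` map is the `3x+1` map on the multiples of `d`; in general one looks at the class of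
`x / d` modulo a power of two. The classes for which the affine neighbours have not merged after `t`
steps form a small proportion of all classes, and multiplication by `d` permutes the classes.
-/

namespace Pool.Agent.Results.MP_d0d59f_nt.SparseUniformInD

open Filter Topology

/-- the `3x+d` map on the integers -/
def T (d x : ℤ) : ℤ := if x % 2 = 0 then x / 2 else (3 * x + d) / 2

/-- The sequence `x` is spread modulo powers of two: there is `δ > 0` such that for every `ε > 0` there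
are `η > 0` and `N₀` such that, for `N ≥ N₀` and `2 ^ t ≤ N ^ δ`, at most `η 2 ^ t` classes modulo `2 ^ t`
contain together at most `ε N` of the integers `x n`, `1 ≤ n ≤ N`. -/
def Spread (x : ℕ → ℤ) : Prop :=
  ∃ δ : ℝ, 0 < δ ∧ ∀ ε : ℝ, 0 < ε → ∃ η : ℝ, 0 < η ∧ ∃ N₀ : ℕ, ∀ N : ℕ, N₀ ≤ N →
    ∀ t : ℕ, (2 : ℝ) ^ t ≤ (N : ℝ) ^ δ → ∀ A : Finset ℤ, (A.card : ℝ) ≤ η * 2 ^ t →
      (({n | 1 ≤ n ∧ n ≤ N ∧ ∃ a ∈ A, x n ≡ a [ZMOD 2 ^ t]} : Set ℕ).ncard : ℝ) ≤ ε * N

/-- The range: `W n = √ log n / (log log n) ^ 17`. -/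
noncomputable def W (n : ℕ) : ℝ := √ (Real.log n) / (Real.log (Real.log n)) ^ 17

/-- If a trajectory of the `3x+d` map passes at time `k` through `3 ^ i x + d r` with `i ≤ W n` and
`|r| ≤ exp (W n)`, then at time `k + s` it is at the point where the trajectory of `x` is at time `s`. -/
def Merged (d x : ℤ) (n s : ℕ) : Prop :=
  ∀ (z : ℤ) (k i : ℕ) (r : ℤ), (i : ℝ) ≤ W n → |(r : ℝ)| ≤ Real.exp (W n) →
    (T d)^[k] z = 3 ^ i * x + d * r → (T d)^[k + s] z = (T d)^[s] x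

open Pool.Agent.H499R2.CO Pool.Agent.Y967.CM Pool.Agent.Y967.TD

theorem ncard_eq (P : ℕ → Prop) [DecidablePred P] (N : ℕ) :
    ({n | 1 ≤ n ∧ n ≤ N ∧ P n} : Set ℕ).ncard = ((Finset.Icc 1 N).filter P).card := by
  rw [← Set.ncard_coe_finset]
  congr 1
  ext n
  simp only [Set.mem_ofPred_eq, Finset.coe_filter, Finset.mem_Icc, and_assoc]

theorem spread_iff (x : ℕ → ℤ) : Spread x ↔ Pool.Agent.Y967.CM.Spread x := by
  classical
  have key : ∀ (N t : ℕ) (A : Finset ℤ),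
      (({n | 1 ≤ n ∧ n ≤ N ∧ ∃ a ∈ A, x n ≡ a [ZMOD 2 ^ t]} : Set ℕ).ncard : ℝ) =
      (((Finset.Icc 1 N).filter (fun n => ∃ a ∈ A, x n ≡ a [ZMOD 2 ^ t])).card : ℝ) := by
    intro N t A
    rw [ncard_eq]
  unfold Spread Pool.Agent.Y967.CM.Spread
  simp only [key]

theorem T_eq (d : ℤ) : T d = Tz d := rfl

theorem ncard_mono {P Q : ℕ → Prop} (h : ∀ n, 1 ≤ n → P n → Q n) (N : ℕ) :
    (({n | 1 ≤ n ∧ n ≤ N ∧ P n} : Set ℕ).ncard : ℝ) ≤ (({n | 1 ≤ n ∧ n ≤ N ∧ Q n} : Set ℕ).ncard : ℝ) := by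
  classical
  rw [ncard_eq, ncard_eq]
  have : ((Finset.Icc 1 N).filter P) ⊆ ((Finset.Icc 1 N).filter Q) := by
    intro n hn
    rw [Finset.mem_filter] at hn ⊢
    exact ⟨hn.1, h n (Finset.mem_Icc.1 hn.1).1 hn.2⟩
  exact_mod_cast Finset.card_le_card this

theorem sq_one {b : ℤ} (h : b ^ 2 = 1) : b = 1 ∨ b = -1 := by
  have h2 : (b - 1) * (b + 1) = 0 := by linear_combination h
  rcases mul_eq_zero.1 h2 with h3 | h3
  · left; omega
  · right; omega

theorem main {x : ℕ → ℤ} (hx : Spread x) {κ : ℝ} (hκ : 0 < κ) {ε : ℝ} (hε : 0 < ε) :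
    ∃ N₀ : ℕ, ∀ N : ℕ, N₀ ≤ N → ∀ d : ℤ, Odd d →
      (({n | 1 ≤ n ∧ n ≤ N ∧ ¬ Merged d (x n) n ⌊κ * Real.log n⌋₊} : Set ℕ).ncard : ℝ) ≤ ε * N := by
  classical
  obtain ⟨δ, hδ, h⟩ := ((spread_iff x).1 hx).spr
  obtain ⟨N0, hN0⟩ := eventually_atTop.1 (all_forms_U hδ (PSpr_d h) (fun w _ _ => w.2) hκ hε)
  refine ⟨N0, fun N hN d hd => ?_⟩
  have h1 := hN0 N hN ⟨d, Int.odd_iff.1 hd⟩
  rw [ncard_eq]
  refine le_trans ?_ h1
  apply Nat.cast_le.2
  apply Finset.card_le_card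
  intro n hn
  rw [Finset.mem_filter] at hn ⊢
  refine ⟨hn.1, fun hcon => hn.2 ?_⟩
  intro z k i r hi hr hz
  rw [add_comm k, Function.iterate_add_apply, hz]
  exact hcon i r hi hr

theorem pass_minus {d : ℤ} (hd : Odd d) (m : ℕ) : ∀ a : ℤ, (T d)^[m] (2 ^ m * a - d) = 3 ^ m * a - d := by
  obtain ⟨q, hq⟩ := hd
  induction m with
  | zero => intro a; simp
  | succ m ih =>
    intro a
    rw [Function.iterate_succ_apply]
    have e : T d (2 ^ (m + 1) * a - d) = 2 ^ m * (3 * a) - d := by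
      have e1 : (2 : ℤ) ^ (m + 1) * a = 2 * (2 ^ m * a) := by ring
      have e2 : (2 : ℤ) ^ m * (3 * a) = 3 * (2 ^ m * a) := by ring
      rw [e1, e2]
      generalize (2 : ℤ) ^ m * a = y
      unfold T
      rw [if_neg (by omega)]
      omega
    rw [e, ih, pow_succ]
    ring

theorem inv_iter {d : ℤ} {S : Set ℤ} (hS : ∀ y, y ∈ S ↔ T d y ∈ S) (j : ℕ) :
    ∀ x : ℤ, x ∈ S ↔ (T d)^[j] x ∈ S := by
  induction j with
  | zero => intro x; rfl
  | succ j ih => intro x; rw [Function.iterate_succ_apply, ← ih]; exact hS x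

/-- (1) The sequences `n` and the primes (`Nat.nth Nat.Prime n`) are spread; if `x` is spread then so is
`f (x n)` for every nonconstant polynomial `f` with integer coefficients, and if the sequence of natural
numbers `e` is spread then so is `a b ^ (e n)` for all `a ≠ 0` and odd `b ≠ 1, -1`.
Let `x` be spread.
(2) For all `κ, ε > 0` there is `N₀` such that, for all `N ≥ N₀` and all odd `d`, the following holds for
all but `ε N` of the `n ≤ N`: if a trajectory of the `3x+d` map passes at time `k` through a point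
`3 ^ i x n + d r` with `i ≤ W n` and `|r| ≤ exp (W n)`, then at time `k + ⌊κ log n⌋` it is at the point
where the trajectory of `x n` is at time `⌊κ log n⌋`; so every set of integers invariant under the
`3x+d` map and its inverse contains both or none of the two starting points.
(3) There is `c > 0` such that for every `ε > 0` there are `K` and `N₀` such that, for all `N ≥ N₀` and
all odd `d` with `|d| ≤ N ^ c`: for every `i ≥ K √ log N` the trajectories of `3 ^ i x n` and `x n` are at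
different points at all times `t ≤ c log N`, for all but `ε N` of the `n ≤ N`; and for all but `ε N` of
the `n ≤ N` there is `r ≤ exp (K √ log N)` such that the trajectories of `x n + d r` and `x n` are at
different points at all times `t ≤ c log N`.
(4) Let `e` be a spread sequence of natural numbers and `a ≠ 0`. For all `κ, ε > 0` there is `N₀` such
that, for all `N ≥ N₀` and all odd `d`, for all but `ε N` of the `n ≤ N`, with `m = e n`, for all
`j ≤ W n`: the trajectories of `2 ^ (m + j) a - d` at time `m + j + ⌊κ log n⌋`, of `2 ^ m a - d` at time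
`m + ⌊κ log n⌋` and of `3 ^ m a` and `3 ^ (m + j) a` at time `⌊κ log n⌋` are at the same point. -/
theorem result :
    (Spread (fun n => (n : ℤ)) ∧ Spread (fun n => ((Nat.nth Nat.Prime n : ℕ) : ℤ)) ∧
      (∀ x : ℕ → ℤ, Spread x → ∀ f : Polynomial ℤ, 1 ≤ f.natDegree → Spread (fun n => f.eval (x n))) ∧
      (∀ e : ℕ → ℕ, Spread (fun n => (e n : ℤ)) → ∀ a b : ℤ, a ≠ 0 → b % 2 = 1 → b ≠ 1 → b ≠ -1 →
        Spread (fun n => a * b ^ e n))) ∧
    (∀ x : ℕ → ℤ, Spread x → ∀ κ ε : ℝ, 0 < κ → 0 < ε → ∃ N₀ : ℕ, ∀ N : ℕ, N₀ ≤ N → ∀ d : ℤ, Odd d →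
      (({n | 1 ≤ n ∧ n ≤ N ∧ ¬ (Merged d (x n) n ⌊κ * Real.log n⌋₊ ∧
        ∀ S : Set ℤ, (∀ y, y ∈ S ↔ T d y ∈ S) → ∀ (z : ℤ) (k i : ℕ) (r : ℤ), (i : ℝ) ≤ W n →
          |(r : ℝ)| ≤ Real.exp (W n) → (T d)^[k] z = 3 ^ i * x n + d * r → (z ∈ S ↔ x n ∈ S))}
        : Set ℕ).ncard : ℝ) ≤ ε * N) ∧
    (∀ x : ℕ → ℤ, Spread x → ∃ c : ℝ, 0 < c ∧ ∀ ε : ℝ, 0 < ε → ∃ K : ℝ, 0 < K ∧ ∃ N₀ : ℕ,
      ∀ N : ℕ, N₀ ≤ N → ∀ d : ℤ, Odd d → |(d : ℝ)| ≤ (N : ℝ) ^ c →
      (∀ i : ℕ, K * √ (Real.log N) ≤ i →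
        (({n | 1 ≤ n ∧ n ≤ N ∧ ∃ t : ℕ, (t : ℝ) ≤ c * Real.log N ∧
          (T d)^[t] (3 ^ i * x n) = (T d)^[t] (x n)} : Set ℕ).ncard : ℝ) ≤ ε * N) ∧
      (({n | 1 ≤ n ∧ n ≤ N ∧ ¬ ∃ r : ℕ, (r : ℝ) ≤ Real.exp (K * √ (Real.log N)) ∧
          ∀ t : ℕ, (t : ℝ) ≤ c * Real.log N → (T d)^[t] (x n + d * r) ≠ (T d)^[t] (x n)}
        : Set ℕ).ncard : ℝ) ≤ ε * N) ∧
    (∀ e : ℕ → ℕ, Spread (fun n => (e n : ℤ)) → ∀ a : ℤ, a ≠ 0 → ∀ κ ε : ℝ, 0 < κ → 0 < ε →
      ∃ N₀ : ℕ, ∀ N : ℕ, N₀ ≤ N → ∀ d : ℤ, Odd d →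
        (({n | 1 ≤ n ∧ n ≤ N ∧ ¬ ∀ m j : ℕ, m = e n → (j : ℝ) ≤ W n →
          (T d)^[m + j + ⌊κ * Real.log n⌋₊] (2 ^ (m + j) * a - d) = (T d)^[⌊κ * Real.log n⌋₊] (3 ^ m * a) ∧
          (T d)^[m + ⌊κ * Real.log n⌋₊] (2 ^ m * a - d) = (T d)^[⌊κ * Real.log n⌋₊] (3 ^ m * a) ∧
          (T d)^[⌊κ * Real.log n⌋₊] (3 ^ (m + j) * a) = (T d)^[⌊κ * Real.log n⌋₊] (3 ^ m * a)}
        : Set ℕ).ncard : ℝ) ≤ ε * N) := by
  classical
  have hid : Spread (fun n => (n : ℤ)) := (spread_iff _).2 (spr_id.spread one_pos)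
  have hpr : Spread (fun n => ((Nat.nth Nat.Prime n : ℕ) : ℤ)) :=
    (spread_iff _).2 (spr_prime.spread (by norm_num))
  have hexp : ∀ e : ℕ → ℕ, Spread (fun n => (e n : ℤ)) → ∀ a b : ℤ, a ≠ 0 → b % 2 = 1 → b ≠ 1 → b ≠ -1 →
        Spread (fun n => a * b ^ e n) := by
    intro e he a b ha hb h1 h2
    have h3 : b ^ 2 ≠ 1 := by
      intro h
      rcases sq_one h with h | h
      · exact h1 h
      · exact h2 h
    obtain ⟨δ, hδ, h⟩ := ((spread_iff _).1 he).spr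
    exact (spread_iff _).2 ((spr_exp h ha hb h3).spread hδ)
  refine ⟨⟨hid, hpr, ?_, hexp⟩, fun x hx κ ε hκ hε => ?_, fun x hx => ?_, fun e he a ha κ ε hκ hε => ?_⟩
  · intro x hx f hf
    exact (spread_iff _).2 (((spread_iff x).1 hx).poly hf)
  · obtain ⟨N0, hN0⟩ := main hx hκ hε
    refine ⟨N0, fun N hN d hd => le_trans ?_ (hN0 N hN d hd)⟩
    apply ncard_mono
    intro n _ hn hM
    apply hn
    refine ⟨hM, fun S hS z k i r hi hr hz => ?_⟩
    rw [inv_iter hS _ z, hM z k i r hi hr hz, ← inv_iter hS]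
  · obtain ⟨δ, hδ, h⟩ := ((spread_iff x).1 hx).spr
    obtain ⟨c, hc, h1⟩ := sharp_d hδ h
    refine ⟨c, hc, fun ε hε => ?_⟩
    obtain ⟨K, hK, N0, h2⟩ := h1 ε hε
    refine ⟨K, hK, N0, fun N hN d hd hdN => ?_⟩
    obtain ⟨h3, h4⟩ := h2 N hN d (Int.odd_iff.1 hd) hdN
    refine ⟨fun i hi => ?_, ?_⟩
    · rw [ncard_eq]
      refine le_trans (le_of_eq ?_) (h3 i hi)
      congr!
    · rw [ncard_eq]
      refine le_trans (le_of_eq ?_) h4
      congr!
  · have hx := hexp e he a 3 ha (by norm_num) (by norm_num) (by norm_num)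
    obtain ⟨N0, hN0⟩ := main hx hκ hε
    refine ⟨N0, fun N hN d hd => le_trans ?_ (hN0 N hN d hd)⟩
    apply ncard_mono
    intro n _ hn hM
    apply hn
    intro m j hm hj
    subst hm
    have hW : 0 ≤ W n := (Nat.cast_nonneg j).trans hj
    have hE : (1 : ℝ) ≤ Real.exp (W n) := Real.one_le_exp hW
    have e0 : a * 3 ^ e n = 3 ^ e n * a := mul_comm _ _
    have hone : ∀ l : ℕ, (l : ℝ) ≤ W n →
        (T d)^[e n + l + ⌊κ * Real.log n⌋₊] (2 ^ (e n + l) * a - d) =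
          (T d)^[⌊κ * Real.log n⌋₊] (3 ^ e n * a) := by
      intro l hl
      have h1 := hM (2 ^ (e n + l) * a - d) (e n + l) l (-1) hl (by
        push_cast; rw [abs_neg, abs_one]; exact hE) (by
        rw [pass_minus hd, pow_add]; ring)
      rw [e0] at h1
      exact h1
    refine ⟨hone j hj, ?_, ?_⟩
    · have h1 := hone 0 (by rw [Nat.cast_zero]; exact hW)
      rw [add_zero] at h1
      exact h1
    · have h1 := hM (3 ^ (e n + j) * a) 0 j 0 hj (by
        push_cast; rw [abs_zero]; linarith) (by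
        rw [Function.iterate_zero, id_eq, pow_add]; ring)
      rw [e0, Nat.zero_add] at h1
      exact h1

end Pool.Agent.Results.MP_d0d59f_nt.SparseUniformInD
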